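import Pool.Agent.W712.WR.Stm

/-!
Project WR: part UNIQ, uniqueness for absolutely continuous solutions.
-/

set_option autoImplicit false

open MeasureTheory Set

namespace Pool.Agent.W330.WR

/-- A coordinate of an absolutely continuous curve is absolutely continuous. -/
theorem ac_coord {n : ℕ} {z : ℝ → Fin n → ℝ} {a b : ℝ}
    (h : AbsolutelyContinuousOnInterval z a b) (j : Fin n) :
    AbsolutelyContinuousOnInterval (fun t => z t j) a b := by
  rw [absolutelyContinuousOnInterval_iff] at h ⊢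
  intro ε hε
  obtain ⟨δ, hδ, H⟩ := h ε hε
  refine ⟨δ, hδ, fun E hE hs => lt_of_le_of_lt (Finset.sum_le_sum fun i _ => ?_) (H E hE hs)⟩
  exact dist_le_pi_dist (z (E.2 i).1) (z (E.2 i).2) j

theorem gron {n : ℕ} {z : ℝ → Fin n → ℝ} {b : ℝ} (L : NNReal) (hb : 0 ≤ b)
    (h : AbsolutelyContinuousOnInterval z 0 b) (h0 : z 0 = 0)
    (hd : ∀ᵐ t, t ∈ Set.Icc 0 b → ∃ w : Fin n → ℝ, HasDerivAt z w t ∧ ‖w‖ ≤ L * ‖z t‖) :
    ∀ t ∈ Set.Icc 0 b, z t = 0 := by
  have hcont : ContinuousOn z (Icc 0 b) := by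
    have := h.continuousOn
    rwa [uIcc_of_le hb] at this
  set w : ℝ → ℝ := fun s => ‖z (max 0 (min s b))‖ with hw
  have hwc : Continuous w := by
    have : Continuous (fun s : ℝ => z (max 0 (min s b))) :=
      hcont.comp_continuous (by fun_prop) fun s => ⟨le_max_left _ _, max_le hb (min_le_right _ _)⟩
    exact this.norm
  have hwz : ∀ s ∈ Icc (0 : ℝ) b, w s = ‖z s‖ := by
    intro s hs
    simp only [hw]
    rw [min_eq_left hs.2, max_eq_right hs.1]
  set u : ℝ → ℝ := fun t => ∫ s in (0 : ℝ)..t, w s with hu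
  have hud : ∀ t, HasDerivAt u (w t) t := fun t =>
    intervalIntegral.integral_hasDerivAt_right (hwc.intervalIntegrable _ _)
      (hwc.stronglyMeasurableAtFilter _ _) hwc.continuousAt
  have hu0 : u 0 = 0 := by simp [hu]
  have hunn : ∀ t, 0 ≤ t → 0 ≤ u t := fun t ht =>
    intervalIntegral.integral_nonneg ht fun s _ => norm_nonneg _
  have hkey : ∀ t ∈ Icc (0 : ℝ) b, ‖z t‖ ≤ L * u t := by
    intro t ht
    refine (pi_norm_le_iff_of_nonneg (mul_nonneg L.2 (hunn t ht.1))).2 fun j => ?_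
    have hac : AbsolutelyContinuousOnInterval (fun s => z s j) 0 t := by
      refine (ac_coord h j).mono ?_
      rw [uIcc_of_le ht.1, uIcc_of_le hb]
      exact Icc_subset_Icc_right ht.2
    have hint := hac.integral_deriv_eq_sub
    have e0 : z 0 j = 0 := by rw [h0]; rfl
    rw [e0, sub_zero] at hint
    rw [← hint]
    have hb1 : ‖∫ s in (0 : ℝ)..t, deriv (fun s => z s j) s‖ ≤ ∫ s in (0 : ℝ)..t, (L : ℝ) * w s := by
      refine intervalIntegral.norm_integral_le_of_norm_le ht.1 ?_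
        ((hwc.const_smul (L : ℝ)).intervalIntegrable _ _)
      filter_upwards [hd] with s hs hs'
      have hsm : s ∈ Icc (0 : ℝ) b := ⟨hs'.1.le, hs'.2.trans ht.2⟩
      obtain ⟨v, hv, hv'⟩ := hs hsm
      have h1 : HasDerivAt (fun s => z s j) (v j) s := (hasDerivAt_pi.1 hv) j
      rw [h1.deriv, hwz s hsm]
      exact (norm_le_pi_norm v j).trans hv'
    rw [intervalIntegral.integral_const_mul] at hb1
    exact hb1
  have huz : ∀ t ∈ Icc (0 : ℝ) b, u t = 0 := by
    refine eq_zero_of_abs_deriv_le_mul_abs_self_of_eq_zero_right (f' := w) (K := (L : ℝ))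
      (fun t _ => (hud t).continuousAt.continuousWithinAt)
      (fun t _ => (hud t).hasDerivWithinAt) hu0 ?_
    intro t ht
    have ht' : t ∈ Icc (0 : ℝ) b := ⟨ht.1, ht.2.le⟩
    rw [Real.norm_of_nonneg (hunn t ht.1), Real.norm_of_nonneg (norm_nonneg _)]
    have := hkey t ht'
    rw [← hwz t ht'] at this
    exact this
  intro t ht
  have h1 := hkey t ht
  rw [huz t ht, mul_zero] at h1
  exact norm_le_zero_iff.1 h1

theorem uniq : W712.WR.UniqStm := by
  intro n G L hG x y b hb hx hy hxd hyd h0 t ht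
  have hz := gron (z := fun t => x t - y t) L hb (hx.sub hy) (by simp [h0]) (by
    filter_upwards [hxd, hyd] with s h1 h2 hs
    refine ⟨G s (x s) - G s (y s), (h1 hs).sub (h2 hs), ?_⟩
    have := (hG s).dist_le_mul (x s) (y s)
    rwa [dist_eq_norm, dist_eq_norm] at this) t ht
  exact sub_eq_zero.1 hz

end Pool.Agent.W330.WR
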